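import Mathlib

/-! Determinant identities for matrices perturbed by the all ones matrix. -/

set_option autoImplicit false
set_option linter.unusedSectionVars false

open Matrix Filter Topology Polynomial

namespace Q263.HK

/-- the all ones matrix -/
def J (m n : Type*) : Matrix m n ℂ := Matrix.of fun _ _ => 1

/-- `det (A + J) - det A`, the sum of the cofactors -/
noncomputable def dd {n : Type*} [Fintype n] [DecidableEq n] (A : Matrix n n ℂ) : ℂ :=
  (A + J n n).det - A.det

section generic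

variable {n : Type*} [Fintype n] [DecidableEq n]

lemma eventually_det_ne (A : Matrix n n ℂ) (c : ℂ) (hc : c ≠ 0) :
    ∀ᶠ z : ℂ in 𝓝[≠] 0, (A + (c * z) • (1 : Matrix n n ℂ)).det ≠ 0 := by
  have h1 : ∀ z : ℂ, (A + (c * z) • (1 : Matrix n n ℂ)).det =
      ((-A).charpoly.comp (C c * X)).eval z := by
    intro z
    rw [eval_comp, Matrix.eval_charpoly]
    congr 1
    simp [Matrix.smul_eq_diagonal_mul, add_comm, Matrix.scalar_apply]
  have hne : (-A).charpoly.comp (C c * X) ≠ 0 := by
    intro h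
    rw [comp_eq_zero_iff] at h
    rcases h with h | ⟨-, h⟩
    · exact (Matrix.charpoly_monic _).ne_zero h
    · have := congrArg (fun p => p.coeff 1) h
      simp [hc] at this
  have hfin : ({z : ℂ | ((-A).charpoly.comp (C c * X)).eval z = 0}).Finite := by
    apply ((-A).charpoly.comp (C c * X)).roots.toFinset.finite_toSet.subset
    intro z hz
    simp only [Finset.mem_coe, Multiset.mem_toFinset]
    rw [mem_roots hne]
    exact hz
  have h2 : ∀ᶠ z : ℂ in 𝓝[≠] 0, z ∉ {z : ℂ | ((-A).charpoly.comp (C c * X)).eval z = 0} \ {0} := by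
    apply mem_nhdsWithin_of_mem_nhds
    exact (hfin.sdiff).isClosed.isOpen_compl.mem_nhds (by simp)
  filter_upwards [h2, self_mem_nhdsWithin] with z hz hz0
  rw [h1]
  intro h
  exact hz ⟨h, hz0⟩

/-- two continuous functions that agree on a punctured neighbourhood of `0` agree at `0` -/
lemma eq_at_zero {F G : ℂ → ℂ} (hF : Continuous F) (hG : Continuous G)
    (h : ∀ᶠ z : ℂ in 𝓝[≠] 0, F z = G z) : F 0 = G 0 := by
  have h1 : Tendsto F (𝓝[≠] 0) (𝓝 (F 0)) := (hF.tendsto 0).mono_left nhdsWithin_le_nhds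
  have h2 : Tendsto G (𝓝[≠] 0) (𝓝 (G 0)) := (hG.tendsto 0).mono_left nhdsWithin_le_nhds
  have h3 : Tendsto F (𝓝[≠] 0) (𝓝 (G 0)) := h2.congr' (h.mono fun z hz => hz.symm)
  exact tendsto_nhds_unique h1 h3

end generic

section sums

variable {m n : Type*} [Fintype m] [DecidableEq m] [Fintype n] [DecidableEq n]

/-- the sum of all the entries -/
noncomputable def sm (A : Matrix m n ℂ) : ℂ := ∑ i, ∑ j, A i j

lemma J_mul_mul_J {l k : Type*} (A : Matrix m n ℂ) : J l m * A * J n k = sm A • J l k := by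
  ext i j
  simp only [Matrix.mul_apply, J, Matrix.of_apply, one_mul, mul_one, Matrix.smul_apply, smul_eq_mul,
    sm]
  rw [Finset.sum_comm]

lemma det_one_sub_smul (A : Matrix n n ℂ) (c : ℂ) :
    (1 + c • (A * J n n)).det = 1 + c * sm A := by
  have h1 : A * J n n = (A * J n Unit) * J Unit n := by
    rw [Matrix.mul_assoc]
    have : J n Unit * J Unit n = J n n := by
      ext i j
      simp [J, Matrix.mul_apply]
    rw [this]
  have h2 : c • (A * J n n) = (c • (A * J n Unit)) * J Unit n := by rw [h1, Matrix.smul_mul]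
  rw [h2, Matrix.det_one_add_mul_comm, Matrix.det_unique]
  simp [J, Matrix.mul_apply, sm]

lemma det_add_J_of_ne {A : Matrix n n ℂ} (hA : A.det ≠ 0) (x : ℂ) :
    (A + x • J n n).det = A.det * (1 + x * sm A⁻¹) := by
  have hu : IsUnit A.det := isUnit_iff_ne_zero.mpr hA
  have h1 : A + x • J n n = A * (1 + x • (A⁻¹ * J n n)) := by
    rw [Matrix.mul_add, Matrix.mul_one, Matrix.mul_smul, Matrix.mul_nonsing_inv_cancel_left _ _ hu]
  rw [h1, Matrix.det_mul, det_one_sub_smul]

lemma dd_of_ne {A : Matrix n n ℂ} (hA : A.det ≠ 0) : dd A = A.det * sm A⁻¹ := by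
  have := det_add_J_of_ne hA 1
  rw [one_smul] at this
  rw [dd, this]
  ring

lemma continuous_dd : Continuous (fun A : Matrix n n ℂ => dd A) := by
  unfold dd
  fun_prop

/-- `det (A + x J) = det A + x * dd A` -/
theorem det_add_J (A : Matrix n n ℂ) (x : ℂ) : (A + x • J n n).det = A.det + x * dd A := by
  have key : ∀ᶠ z : ℂ in 𝓝[≠] 0, ((A + (1 * z) • (1 : Matrix n n ℂ)) + x • J n n).det =
      (A + (1 * z) • (1 : Matrix n n ℂ)).det + x * dd (A + (1 * z) • (1 : Matrix n n ℂ)) := by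
    filter_upwards [eventually_det_ne A 1 one_ne_zero] with z hz
    rw [det_add_J_of_ne hz, dd_of_ne hz]
    ring
  have hc1 : Continuous fun z : ℂ => ((A + (1 * z) • (1 : Matrix n n ℂ)) + x • J n n).det := by
    fun_prop
  have hc2 : Continuous fun z : ℂ =>
      (A + (1 * z) • (1 : Matrix n n ℂ)).det + x * dd (A + (1 * z) • (1 : Matrix n n ℂ)) := by
    unfold dd
    fun_prop
  have := eq_at_zero hc1 hc2 key
  simpa using this

lemma dd_add_J (A : Matrix n n ℂ) (x : ℂ) : dd (A + x • J n n) = dd A := by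
  have h1 := det_add_J A (x + 1)
  have h2 := det_add_J A x
  rw [dd, h2]
  have h3 : A + x • J n n + J n n = A + (x + 1) • J n n := by
    rw [add_smul, one_smul, add_assoc]
  rw [h3, h1]
  ring

lemma dd_smul (A : Matrix n n ℂ) (c : ℂ) (h : Nonempty n) :
    dd (c • A) = c ^ (Fintype.card n - 1) * dd A := by
  have hc : 0 < Fintype.card n := Fintype.card_pos
  by_cases hc0 : c = 0
  · subst hc0
    -- both sides by continuity is avoided: direct computation
    have key : ∀ᶠ z : ℂ in 𝓝[≠] 0, dd (z • A) = z ^ (Fintype.card n - 1) * dd A := by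
      filter_upwards [self_mem_nhdsWithin] with z hz
      have hz' : z ≠ 0 := hz
      have h1 := det_add_J A z⁻¹
      have h2 : z • A + J n n = z • (A + z⁻¹ • J n n) := by
        rw [smul_add, smul_smul, mul_inv_cancel₀ hz', one_smul]
      rw [dd, h2, Matrix.det_smul, Matrix.det_smul, h1]
      obtain ⟨k, hk⟩ : ∃ k, Fintype.card n = k + 1 := ⟨Fintype.card n - 1, by omega⟩
      rw [hk, Nat.add_sub_cancel, pow_succ]
      field_simp
      ring
    have hc1 : Continuous fun z : ℂ => dd (z • A) := by unfold dd; fun_prop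
    have hc2 : Continuous fun z : ℂ => z ^ (Fintype.card n - 1) * dd A := by fun_prop
    exact eq_at_zero hc1 hc2 key
  · have h1 := det_add_J A c⁻¹
    have h2 : c • A + J n n = c • (A + c⁻¹ • J n n) := by
      rw [smul_add, smul_smul, mul_inv_cancel₀ hc0, one_smul]
    rw [dd, h2, Matrix.det_smul, Matrix.det_smul, h1]
    obtain ⟨k, hk⟩ : ∃ k, Fintype.card n = k + 1 := ⟨Fintype.card n - 1, by omega⟩
    rw [hk, Nat.add_sub_cancel, pow_succ]
    field_simp
    ring

/-- `det [[X, J], [J, Y]] = det X det Y - dd X dd Y` -/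
theorem det_blocks_J (X' : Matrix m m ℂ) (Y : Matrix n n ℂ) :
    (fromBlocks X' (J m n) (J n m) Y).det = X'.det * Y.det - dd X' * dd Y := by
  have key : ∀ᶠ z : ℂ in 𝓝[≠] 0,
      (fromBlocks (X' + (1 * z) • (1 : Matrix m m ℂ)) (J m n) (J n m)
        (Y + (1 * z) • (1 : Matrix n n ℂ))).det =
      (X' + (1 * z) • (1 : Matrix m m ℂ)).det * (Y + (1 * z) • (1 : Matrix n n ℂ)).det -
        dd (X' + (1 * z) • (1 : Matrix m m ℂ)) * dd (Y + (1 * z) • (1 : Matrix n n ℂ)) := by
    filter_upwards [eventually_det_ne X' 1 one_ne_zero, eventually_det_ne Y 1 one_ne_zero]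
      with z h1 h2
    set A := X' + (1 * z) • (1 : Matrix m m ℂ)
    set B := Y + (1 * z) • (1 : Matrix n n ℂ)
    have hu : IsUnit B.det := isUnit_iff_ne_zero.mpr h2
    let _ : Invertible B := Matrix.invertibleOfIsUnitDet B hu
    rw [det_fromBlocks₂₂, Matrix.invOf_eq_nonsing_inv, J_mul_mul_J, dd_of_ne h1, dd_of_ne h2,
      sub_eq_add_neg, ← neg_smul, det_add_J_of_ne h1]
    ring
  have hc1 : Continuous fun z : ℂ =>
      (fromBlocks (X' + (1 * z) • (1 : Matrix m m ℂ)) (J m n) (J n m)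
        (Y + (1 * z) • (1 : Matrix n n ℂ))).det := by
    apply Continuous.matrix_det
    apply Continuous.matrix_fromBlocks <;> fun_prop
  have hc2 : Continuous fun z : ℂ =>
      (X' + (1 * z) • (1 : Matrix m m ℂ)).det * (Y + (1 * z) • (1 : Matrix n n ℂ)).det -
        dd (X' + (1 * z) • (1 : Matrix m m ℂ)) * dd (Y + (1 * z) • (1 : Matrix n n ℂ)) := by
    unfold dd
    fun_prop
  have := eq_at_zero hc1 hc2 key
  simpa using this

/-- a congruence transformation -/
theorem det_congr (A : Matrix m m ℂ) (B : Matrix m n ℂ) (C : Matrix n m ℂ) (D : Matrix n n ℂ)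
    (R : Matrix n m ℂ) :
    (fromBlocks A B C D).det =
      (fromBlocks A (B - A * Rᵀ) (C - R * A) (D - R * B - C * Rᵀ + R * A * Rᵀ)).det := by
  have h1 : fromBlocks A (B - A * Rᵀ) (C - R * A) (D - R * B - C * Rᵀ + R * A * Rᵀ) =
      fromBlocks 1 0 (-R) 1 * fromBlocks A B C D * fromBlocks 1 (-Rᵀ) 0 1 := by
    rw [fromBlocks_multiply, fromBlocks_multiply]
    congr 1
    · simp
    · simp [sub_eq_add_neg, add_comm]
    · simp [sub_eq_add_neg, add_comm]
    · simp only [Matrix.one_mul, Matrix.mul_one, Matrix.neg_mul, Matrix.mul_neg, Matrix.add_mul]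
      abel
  rw [h1, det_mul, det_mul, det_fromBlocks_zero₁₂, det_fromBlocks_zero₂₁]
  simp

/-- `det [[A, B], [B, A]] = det (A + B) det (A - B)` -/
theorem det_swap (A B : Matrix n n ℂ) :
    (fromBlocks A B B A).det = (A + B).det * (A - B).det := by
  have h1 : fromBlocks (A + B) B 0 (A - B) =
      fromBlocks 1 0 (-1) 1 * fromBlocks A B B A * fromBlocks 1 0 1 1 := by
    rw [fromBlocks_multiply, fromBlocks_multiply]
    congr 1
    · simp
    · simp
    · simp
    · simp [sub_eq_add_neg, add_comm]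
  have h2 := congrArg Matrix.det h1
  rw [det_mul, det_mul, det_fromBlocks_zero₁₂, det_fromBlocks_zero₁₂, det_fromBlocks_zero₂₁] at h2
  simpa using h2.symm


lemma bf_aux (P Q : Matrix n n ℂ) (a b c d : n → ℂ) :
    2 * (∑ j, ((∑ i, c i * ((1 / 2 : ℂ) * (P i j + Q i j))) +
        ∑ i, d i * ((1 / 2 : ℂ) * (P i j - Q i j))) * a j +
      ∑ j, ((∑ i, c i * ((1 / 2 : ℂ) * (P i j - Q i j))) +
        ∑ i, d i * ((1 / 2 : ℂ) * (P i j + Q i j))) * b j) =
    ∑ j, (∑ i, (c i + d i) * P i j) * (a j + b j) +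
      ∑ j, (∑ i, (c i - d i) * Q i j) * (a j - b j) := by
  rw [← Finset.sum_add_distrib, ← Finset.sum_add_distrib, Finset.mul_sum]
  refine Finset.sum_congr rfl fun j _ => ?_
  have h1 : ∀ (u : n → ℂ), ∑ i, u i * ((1 / 2 : ℂ) * (P i j + Q i j)) =
      (1 / 2) * (∑ i, u i * P i j + ∑ i, u i * Q i j) := by
    intro u
    rw [← Finset.sum_add_distrib, Finset.mul_sum]
    exact Finset.sum_congr rfl fun i _ => by ring
  have h2 : ∀ (u : n → ℂ), ∑ i, u i * ((1 / 2 : ℂ) * (P i j - Q i j)) =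
      (1 / 2) * (∑ i, u i * P i j - ∑ i, u i * Q i j) := by
    intro u
    rw [← Finset.sum_sub_distrib, Finset.mul_sum]
    exact Finset.sum_congr rfl fun i _ => by ring
  have h3 : ∑ i, (c i + d i) * P i j = ∑ i, c i * P i j + ∑ i, d i * P i j := by
    rw [← Finset.sum_add_distrib]
    exact Finset.sum_congr rfl fun i _ => by ring
  have h4 : ∑ i, (c i - d i) * Q i j = ∑ i, c i * Q i j - ∑ i, d i * Q i j := by
    rw [← Finset.sum_sub_distrib]
    exact Finset.sum_congr rfl fun i _ => by ring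
  rw [h1, h1, h2, h2, h3, h4]
  ring

/-- bordered matrix -/
def bord {k : Type*} (A : Matrix k k ℂ) (a c : k → ℂ) (α : ℂ) : Matrix (k ⊕ Unit) (k ⊕ Unit) ℂ :=
  fromBlocks A (Matrix.of fun i (_ : Unit) => a i) (Matrix.of fun (_ : Unit) j => c j)
    (Matrix.of fun (_ _ : Unit) => α)

lemma det_bord {k : Type*} [Fintype k] [DecidableEq k] (A W : Matrix k k ℂ) (hW : A * W = 1)
    (a c : k → ℂ) (α : ℂ) :
    (bord A a c α).det = A.det * (α - ∑ j, (∑ i, c i * W i j) * a j) := by
  let _ : Invertible A := invertibleOfRightInverse A W hW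
  have hi : ⅟A = W := invOf_eq_right_inv hW
  rw [bord, det_fromBlocks₁₁, hi]
  congr 1
  rw [det_unique]
  simp [Matrix.mul_apply]

lemma continuous_bord {k : Type*} [Fintype k] [DecidableEq k] (a c : k → ℂ) (α : ℂ) :
    Continuous (fun A : Matrix k k ℂ => (bord A a c α).det) := by
  unfold bord
  apply Continuous.matrix_det
  apply Continuous.matrix_fromBlocks <;> fun_prop

/-- the same with one more row and column -/
theorem det_swap_succ (A B : Matrix n n ℂ) (a b c d : n → ℂ) (α β : ℂ) :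
    2 * (bord (fromBlocks A B B A) (Sum.elim a b) (Sum.elim c d) α).det =
    (A - B).det * (bord (A + B) (a + b) (c + d) (α + β)).det +
    (A + B).det * (bord (A - B) (a - b) (c - d) (α - β)).det := by
  have key : ∀ᶠ z : ℂ in 𝓝[≠] 0,
      2 * (bord (fromBlocks (A + (1 * z) • (1 : Matrix n n ℂ)) B B
          (A + (1 * z) • (1 : Matrix n n ℂ))) (Sum.elim a b) (Sum.elim c d) α).det =
      (A + (1 * z) • (1 : Matrix n n ℂ) - B).det *
        (bord (A + (1 * z) • (1 : Matrix n n ℂ) + B) (a + b) (c + d) (α + β)).det +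
      (A + (1 * z) • (1 : Matrix n n ℂ) + B).det *
        (bord (A + (1 * z) • (1 : Matrix n n ℂ) - B) (a - b) (c - d) (α - β)).det := by
    filter_upwards [eventually_det_ne (A + B) 1 one_ne_zero, eventually_det_ne (A - B) 1 one_ne_zero]
      with z h1 h2
    have e1 : A + B + (1 * z) • (1 : Matrix n n ℂ) = A + (1 * z) • (1 : Matrix n n ℂ) + B := by
      abel
    have e2 : A - B + (1 * z) • (1 : Matrix n n ℂ) = A + (1 * z) • (1 : Matrix n n ℂ) - B := by
      abel
    rw [e1] at h1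
    rw [e2] at h2
    generalize A + (1 * z) • (1 : Matrix n n ℂ) = A' at h1 h2 ⊢
    have hu1 : IsUnit (A' + B).det := isUnit_iff_ne_zero.mpr h1
    have hu2 : IsUnit (A' - B).det := isUnit_iff_ne_zero.mpr h2
    obtain ⟨P, hPm⟩ : ∃ P, (A' + B) * P = 1 := ⟨_, Matrix.mul_nonsing_inv _ hu1⟩
    obtain ⟨Q, hQm⟩ : ∃ Q, (A' - B) * Q = 1 := ⟨_, Matrix.mul_nonsing_inv _ hu2⟩
    have hinv : fromBlocks A' B B A' *
        fromBlocks ((1 / 2 : ℂ) • (P + Q)) ((1 / 2 : ℂ) • (P - Q)) ((1 / 2 : ℂ) • (P - Q))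
          ((1 / 2 : ℂ) • (P + Q)) = 1 := by
      rw [fromBlocks_multiply, ← fromBlocks_one]
      have k1 : A' * ((1 / 2 : ℂ) • (P + Q)) + B * ((1 / 2 : ℂ) • (P - Q)) =
          (1 / 2 : ℂ) • ((A' + B) * P + (A' - B) * Q) := by
        rw [Matrix.mul_smul, Matrix.mul_smul, ← smul_add]
        congr 1
        rw [Matrix.mul_add, Matrix.mul_sub, Matrix.add_mul, Matrix.sub_mul]
        abel
      have k2 : A' * ((1 / 2 : ℂ) • (P - Q)) + B * ((1 / 2 : ℂ) • (P + Q)) =
          (1 / 2 : ℂ) • ((A' + B) * P - (A' - B) * Q) := by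
        rw [Matrix.mul_smul, Matrix.mul_smul, ← smul_add]
        congr 1
        rw [Matrix.mul_add, Matrix.mul_sub, Matrix.add_mul, Matrix.sub_mul]
        abel
      have k3 : (1 / 2 : ℂ) • ((A' + B) * P + (A' - B) * Q) = 1 := by
        rw [hPm, hQm, ← two_smul ℂ (1 : Matrix n n ℂ), smul_smul]
        norm_num
      have k4 : (1 / 2 : ℂ) • ((A' + B) * P - (A' - B) * Q) = 0 := by
        rw [hPm, hQm, sub_self, smul_zero]
      have k5 : B * ((1 / 2 : ℂ) • (P + Q)) + A' * ((1 / 2 : ℂ) • (P - Q)) = 0 := by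
        rw [add_comm, k2, k4]
      have k6 : B * ((1 / 2 : ℂ) • (P - Q)) + A' * ((1 / 2 : ℂ) • (P + Q)) = 1 := by
        rw [add_comm, k1, k3]
      rw [k1, k2, k5, k6, k3, k4]
    rw [det_bord _ _ hinv, det_bord _ _ hPm, det_bord _ _ hQm, det_swap]
    have hb := bf_aux P Q a b c d
    simp only [Fintype.sum_sum_type, Sum.elim_inl, Sum.elim_inr, fromBlocks_apply₁₁,
      fromBlocks_apply₁₂, fromBlocks_apply₂₁, fromBlocks_apply₂₂, Matrix.smul_apply,
      Matrix.add_apply, Matrix.sub_apply, smul_eq_mul, Pi.add_apply, Pi.sub_apply]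
    linear_combination (-(A' + B).det * (A' - B).det) * hb
  have hc1 : Continuous fun z : ℂ =>
      2 * (bord (fromBlocks (A + (1 * z) • (1 : Matrix n n ℂ)) B B
          (A + (1 * z) • (1 : Matrix n n ℂ))) (Sum.elim a b) (Sum.elim c d) α).det := by
    refine continuous_const.mul ((continuous_bord _ _ _).comp ?_)
    apply Continuous.matrix_fromBlocks <;> fun_prop
  have hc2 : Continuous fun z : ℂ =>
      (A + (1 * z) • (1 : Matrix n n ℂ) - B).det *
        (bord (A + (1 * z) • (1 : Matrix n n ℂ) + B) (a + b) (c + d) (α + β)).det +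
      (A + (1 * z) • (1 : Matrix n n ℂ) + B).det *
        (bord (A + (1 * z) • (1 : Matrix n n ℂ) - B) (a - b) (c - d) (α - β)).det := by
    refine Continuous.add (Continuous.mul ?_ ((continuous_bord _ _ _).comp ?_))
      (Continuous.mul ?_ ((continuous_bord _ _ _).comp ?_)) <;> fun_prop
  have := eq_at_zero hc1 hc2 key
  simpa using this

end sums

end Q263.HK
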