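import Mathlib
import Pool.Agent.Q263.HK.Alg

/-! Recurrences for the Hankel determinants of the binary digit sum. -/

set_option autoImplicit false
set_option linter.unusedSectionVars false

open Matrix

namespace Q263.HK

/-- Hankel matrix -/
def hk (f : ℕ → ℂ) (n : ℕ) : Matrix (Fin n) (Fin n) ℂ := Matrix.of fun i j => f (i + j)

lemma det_reindex {ι : Type*} [Fintype ι] [DecidableEq ι] (F : ℕ → ℕ → ℂ) (φ : ι → ℕ) (N : ℕ)
    (hφ : Function.Injective φ) (hN : ∀ i, φ i < N) (hc : Fintype.card ι = N) :
    (Matrix.of fun i j : ι => F (φ i) (φ j)).det = (Matrix.of fun i j : Fin N => F i j).det := by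
  have hb : Function.Bijective (fun i : ι => (⟨φ i, hN i⟩ : Fin N)) := by
    rw [Fintype.bijective_iff_injective_and_card]
    refine ⟨fun i j h => hφ (by simpa using h), by simp [hc]⟩
  let e : ι ≃ Fin N := Equiv.ofBijective _ hb
  rw [← Matrix.det_submatrix_equiv_self e]
  rfl

variable {t : ℂ} {S : ℕ → ℂ}

/-- the difference sequence -/
def Df (S : ℕ → ℂ) (m : ℕ) : ℂ := S (m + 1) - S m

/-- the determinant and the sum of the cofactors -/
noncomputable def h (S : ℕ → ℂ) (n : ℕ) : ℂ := (hk S n).det
noncomputable def h' (S : ℕ → ℂ) (n : ℕ) : ℂ := dd (hk S n)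
noncomputable def g (S : ℕ → ℂ) (n : ℕ) : ℂ := (hk (Df S) n).det
noncomputable def g' (S : ℕ → ℂ) (n : ℕ) : ℂ := dd (hk (Df S) n)


lemma det_affine {n : ℕ} (hn : 0 < n) (A : Matrix (Fin n) (Fin n) ℂ) (t x : ℂ) :
    (t • A + x • J _ _).det = t ^ n * A.det + x * (t ^ (n - 1) * dd A) := by
  rw [det_add_J, det_smul, dd_smul _ _ ⟨⟨0, hn⟩⟩]
  simp

lemma dd_affine {n : ℕ} (hn : 0 < n) (A : Matrix (Fin n) (Fin n) ℂ) (t x : ℂ) :
    dd (t • A + x • J _ _) = t ^ (n - 1) * dd A := by
  rw [dd_add_J, dd_smul _ _ ⟨⟨0, hn⟩⟩]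
  simp

theorem detH (h0 : ∀ m, S (2 * m) = t * S m) (h1 : ∀ m, S (2 * m + 1) = t * S m + 1)
    (p q : ℕ) (hpq : q ≤ p) (hpq' : p ≤ q + 1) (x : ℂ) :
    (hk S (p + q) + x • J _ _).det =
      (t • hk S p + x • J _ _).det * (t • hk (Df S) q + (-2 : ℂ) • J _ _).det -
      dd (t • hk S p + x • J _ _) * dd (t • hk (Df S) q + (-2 : ℂ) • J _ _) := by
  rw [← det_blocks_J]
  have e1 := det_reindex (fun i j => S (i + j) + x)
    (Sum.elim (fun i : Fin p => 2 * (i : ℕ)) (fun i : Fin q => 2 * (i : ℕ) + 1)) (p + q)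
    (by
      rintro (i | i) (j | j) hij
      · simp only [Sum.elim_inl] at hij
        congr 1
        apply Fin.ext
        omega
      · simp only [Sum.elim_inl, Sum.elim_inr] at hij
        omega
      · simp only [Sum.elim_inl, Sum.elim_inr] at hij
        omega
      · simp only [Sum.elim_inr] at hij
        congr 1
        apply Fin.ext
        omega)
    (by
      rintro (i | i)
      · simp only [Sum.elim_inl]
        omega
      · simp only [Sum.elim_inr]
        omega)
    (by simp)
  have e2 : (hk S (p + q) + x • J _ _) = (Matrix.of fun i j : Fin (p + q) => S (i + j) + x) := by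
    ext i j
    simp [hk, J]
  rw [e2, ← e1]
  have e3 : (Matrix.of fun i j : Fin p ⊕ Fin q => S
      (Sum.elim (fun i : Fin p => 2 * (i : ℕ)) (fun i : Fin q => 2 * (i : ℕ) + 1) i +
        Sum.elim (fun i : Fin p => 2 * (i : ℕ)) (fun i : Fin q => 2 * (i : ℕ) + 1) j) + x) =
      fromBlocks (Matrix.of fun i j : Fin p => t * S (i + j) + x)
        (Matrix.of fun (i : Fin p) (j : Fin q) => t * S (i + j) + 1 + x)
        (Matrix.of fun (i : Fin q) (j : Fin p) => t * S (i + j) + 1 + x)
        (Matrix.of fun (i : Fin q) (j : Fin q) => t * S (i + j + 1) + x) := by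
    ext i j
    rcases i with i | i <;> rcases j with j | j
    · simp only [Matrix.of_apply, Sum.elim_inl, fromBlocks_apply₁₁]
      rw [← mul_add, h0]
    · simp only [Matrix.of_apply, Sum.elim_inl, Sum.elim_inr, fromBlocks_apply₁₂]
      rw [show 2 * (i : ℕ) + (2 * (j : ℕ) + 1) = 2 * (i + j) + 1 by ring, h1]
    · simp only [Matrix.of_apply, Sum.elim_inl, Sum.elim_inr, fromBlocks_apply₂₁]
      rw [show 2 * (i : ℕ) + 1 + (2 * (j : ℕ)) = 2 * (i + j) + 1 by ring, h1]
    · simp only [Matrix.of_apply, Sum.elim_inr, fromBlocks_apply₂₂]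
      rw [show 2 * (i : ℕ) + 1 + (2 * (j : ℕ) + 1) = 2 * (i + j + 1) by ring, h0]
  rw [e3]
  set R : Matrix (Fin q) (Fin p) ℂ := Matrix.of fun i j => if (i : ℕ) = j then 1 else 0 with hR
  have hRA : ∀ {k : Type} [Fintype k] (A : Matrix (Fin p) k ℂ) (i : Fin q) (j : k),
      (R * A) i j = A ⟨i, i.2.trans_le hpq⟩ j := by
    intro k _ A i j
    rw [Matrix.mul_apply, Finset.sum_eq_single (⟨i, i.2.trans_le hpq⟩ : Fin p)]
    · simp [hR]
    · intro b _ hb
      have : ¬ (i : ℕ) = b := fun hh => hb (Fin.ext hh.symm)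
      simp [hR, this]
    · simp
  have hAR : ∀ {k : Type} [Fintype k] (A : Matrix k (Fin p) ℂ) (i : k) (j : Fin q),
      (A * Rᵀ) i j = A i ⟨j, j.2.trans_le hpq⟩ := by
    intro k _ A i j
    rw [Matrix.mul_apply, Finset.sum_eq_single (⟨j, j.2.trans_le hpq⟩ : Fin p)]
    · simp [hR]
    · intro b _ hb
      have : ¬ (j : ℕ) = b := fun hh => hb (Fin.ext hh.symm)
      simp [hR, this]
    · simp
  rw [det_congr _ _ _ _ R]
  congr 2
  · ext i j
    simp [hk, J]
  · ext i j
    rw [Matrix.sub_apply, hAR]
    simp only [Matrix.of_apply, J]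
    ring
  · ext i j
    rw [Matrix.sub_apply, hRA]
    simp only [Matrix.of_apply, J]
    ring
  · ext i j
    rw [Matrix.add_apply, Matrix.sub_apply, Matrix.sub_apply, hRA, hAR, hAR, hRA]
    simp only [Matrix.of_apply, J, hk, Df, Matrix.add_apply, Matrix.smul_apply, smul_eq_mul]
    ring

theorem h_rec (h0 : ∀ m, S (2 * m) = t * S m) (h1 : ∀ m, S (2 * m + 1) = t * S m + 1)
    (p q : ℕ) (hq : 0 < q) (hpq : q ≤ p) (hpq' : p ≤ q + 1) :
    h S (p + q) = t ^ p * h S p * (t ^ (q - 1) * (t * g S q - 2 * g' S q)) -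
      t ^ (p - 1) * h' S p * (t ^ (q - 1) * g' S q) ∧
    h' S (p + q) = t ^ (p - 1) * h' S p * (t ^ (q - 1) * (t * g S q - 2 * g' S q)) := by
  have hp : 0 < p := by omega
  have key : ∀ x : ℂ, h S (p + q) + x * h' S (p + q) =
      (t ^ p * h S p + x * (t ^ (p - 1) * h' S p)) * (t ^ (q - 1) * (t * g S q - 2 * g' S q)) -
      t ^ (p - 1) * h' S p * (t ^ (q - 1) * g' S q) := by
    intro x
    have := detH h0 h1 p q hpq hpq' x
    rw [det_add_J, det_affine hp, det_affine hq, dd_affine hp, dd_affine hq] at this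
    unfold h h' g g'
    rw [this]
    obtain ⟨k, rfl⟩ : ∃ k, q = k + 1 := ⟨q - 1, by omega⟩
    rw [Nat.add_sub_cancel, pow_succ t k]
    ring
  have k0 := key 0
  have k1 := key 1
  constructor
  · linear_combination k0
  · linear_combination k1 - k0

theorem g_even (h0 : ∀ m, S (2 * m) = t * S m) (h1 : ∀ m, S (2 * m + 1) = t * S m + 1)
    (n : ℕ) (hn : 0 < n) :
    g S (2 * n) = (-1) ^ n * (t ^ n * g S n) * (t ^ (n - 1) * (t * g S n - 2 * g' S n)) ∧
    g' S (2 * n) = 2 * (-1) ^ n * (t ^ (n - 1) * g' S n) *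
      (t ^ (n - 1) * (t * g S n - 2 * g' S n)) := by
  have key : ∀ x : ℂ, g S (2 * n) + x * g' S (2 * n) =
      (-1) ^ n * (t ^ n * g S n + 2 * x * (t ^ (n - 1) * g' S n)) *
        (t ^ (n - 1) * (t * g S n - 2 * g' S n)) := by
    intro x
    have e1 := det_reindex (fun i j => Df S (i + j) + x)
      (Sum.elim (fun i : Fin n => 2 * (i : ℕ)) (fun i : Fin n => 2 * (i : ℕ) + 1)) (2 * n)
      (by
        rintro (i | i) (j | j) hij
        · simp only [Sum.elim_inl] at hij
          congr 1
          apply Fin.ext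
          omega
        · simp only [Sum.elim_inl, Sum.elim_inr] at hij
          omega
        · simp only [Sum.elim_inl, Sum.elim_inr] at hij
          omega
        · simp only [Sum.elim_inr] at hij
          congr 1
          apply Fin.ext
          omega)
      (by
        rintro (i | i)
        · simp only [Sum.elim_inl]
          omega
        · simp only [Sum.elim_inr]
          omega)
      (by simp [two_mul])
    have e2 : (hk (Df S) (2 * n) + x • J _ _) =
        (Matrix.of fun i j : Fin (2 * n) => Df S (i + j) + x) := by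
      ext i j
      simp [hk, J]
    have e3 : (Matrix.of fun i j : Fin n ⊕ Fin n => Df S
        (Sum.elim (fun i : Fin n => 2 * (i : ℕ)) (fun i : Fin n => 2 * (i : ℕ) + 1) i +
          Sum.elim (fun i : Fin n => 2 * (i : ℕ)) (fun i : Fin n => 2 * (i : ℕ) + 1) j) + x) =
        fromBlocks ((1 + x) • J (Fin n) (Fin n))
          (t • hk (Df S) n + (x - 1) • J _ _)
          (t • hk (Df S) n + (x - 1) • J _ _)
          ((1 + x) • J (Fin n) (Fin n)) := by
      ext i j
      rcases i with i | i <;> rcases j with j | j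
      · simp only [Matrix.of_apply, Sum.elim_inl, fromBlocks_apply₁₁, Df, J, Matrix.smul_apply,
          smul_eq_mul]
        rw [← mul_add, h0, h1]
        ring
      · simp only [Matrix.of_apply, Sum.elim_inl, Sum.elim_inr, fromBlocks_apply₁₂, Df, J, hk,
          Matrix.smul_apply, smul_eq_mul, Matrix.add_apply]
        rw [show 2 * (i : ℕ) + (2 * (j : ℕ) + 1) = 2 * (i + j) + 1 by ring,
          show 2 * ((i : ℕ) + j) + 1 + 1 = 2 * (i + j + 1) by ring, h1, h0]
        ring
      · simp only [Matrix.of_apply, Sum.elim_inl, Sum.elim_inr, fromBlocks_apply₂₁, Df, J, hk,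
          Matrix.smul_apply, smul_eq_mul, Matrix.add_apply]
        rw [show 2 * (i : ℕ) + 1 + (2 * (j : ℕ)) = 2 * (i + j) + 1 by ring,
          show 2 * ((i : ℕ) + j) + 1 + 1 = 2 * (i + j + 1) by ring, h1, h0]
        ring
      · simp only [Matrix.of_apply, Sum.elim_inr, fromBlocks_apply₂₂, Df, J, Matrix.smul_apply,
          smul_eq_mul]
        rw [show 2 * (i : ℕ) + 1 + (2 * (j : ℕ) + 1) = 2 * (i + j + 1) by ring, h0, h1]
        ring
    have e4 : (hk (Df S) (2 * n) + x • J _ _).det =
        (t • hk (Df S) n + (2 * x) • J _ _).det *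
          ((-1 : ℂ) • (t • hk (Df S) n + (-2 : ℂ) • J _ _)).det := by
      rw [e2, ← e1, e3, det_swap]
      congr 2
      · ext i j
        simp only [J, Matrix.smul_apply, Matrix.add_apply, smul_eq_mul, Matrix.of_apply]
        ring
      · ext i j
        simp only [J, Matrix.smul_apply, Matrix.add_apply, Matrix.sub_apply, smul_eq_mul,
          Matrix.of_apply]
        ring
    rw [det_add_J, det_affine hn, det_smul, det_affine hn, Fintype.card_fin] at e4
    unfold g g'
    rw [e4]
    obtain ⟨k, rfl⟩ : ∃ k, n = k + 1 := ⟨n - 1, by omega⟩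
    rw [Nat.add_sub_cancel, pow_succ t k]
    ring
  have k0 := key 0
  have k1 := key 1
  constructor
  · linear_combination k0
  · linear_combination k1 - k0

lemma bord_last (f : ℕ → ℂ) (n : ℕ) :
    (bord (Matrix.of fun i j : Fin n => f (i + j)) (fun i => f (i + n)) (fun j => f (n + j))
      (f (n + n))).det = (Matrix.of fun i j : Fin (n + 1) => f (i + j)).det := by
  have e1 := det_reindex (fun i j => f (i + j))
    (Sum.elim (fun i : Fin n => (i : ℕ)) (fun _ : Unit => n)) (n + 1)
    (by
      rintro (i | i) (j | j) hij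
      · simp only [Sum.elim_inl] at hij
        congr 1
        apply Fin.ext
        omega
      · simp only [Sum.elim_inl, Sum.elim_inr] at hij
        omega
      · simp only [Sum.elim_inl, Sum.elim_inr] at hij
        omega
      · rfl)
    (by
      rintro (i | i)
      · simp only [Sum.elim_inl]
        omega
      · simp only [Sum.elim_inr]
        omega)
    (by simp)
  rw [← e1]
  congr 1
  ext i j
  rcases i with i | i <;> rcases j with j | j <;> simp [bord]

theorem g_odd (h0 : ∀ m, S (2 * m) = t * S m) (h1 : ∀ m, S (2 * m + 1) = t * S m + 1)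
    (n : ℕ) (hn : 0 < n) :
    g S (2 * n + 1) = (-1) ^ n * t ^ (2 * n) * (g' S (n + 1) * g S n - g S (n + 1) * g' S n) ∧
    g' S (2 * n + 1) =
      (-1) ^ n * t ^ (2 * n) * (g' S (n + 1) * g S n - g S (n + 1) * g' S n) := by
  have key : ∀ x : ℂ, g S (2 * n + 1) + x * g' S (2 * n + 1) =
      (1 + x) * ((-1) ^ n * t ^ (2 * n) * (g' S (n + 1) * g S n - g S (n + 1) * g' S n)) := by
    intro x
    have e1 := det_reindex (fun i j => Df S (i + j) + x)
      (Sum.elim (Sum.elim (fun i : Fin n => 2 * (i : ℕ)) (fun i : Fin n => 2 * (i : ℕ) + 1))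
        (fun _ : Unit => 2 * n)) (2 * n + 1)
      (by
        rintro ((i | i) | i) ((j | j) | j) hij
        · simp only [Sum.elim_inl] at hij
          congr 2
          apply Fin.ext
          omega
        · simp only [Sum.elim_inl, Sum.elim_inr] at hij
          omega
        · simp only [Sum.elim_inl, Sum.elim_inr] at hij
          omega
        · simp only [Sum.elim_inl, Sum.elim_inr] at hij
          omega
        · simp only [Sum.elim_inl, Sum.elim_inr] at hij
          congr 2
          apply Fin.ext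
          omega
        · simp only [Sum.elim_inl, Sum.elim_inr] at hij
          omega
        · simp only [Sum.elim_inl, Sum.elim_inr] at hij
          omega
        · simp only [Sum.elim_inl, Sum.elim_inr] at hij
          omega
        · rfl)
      (by
        rintro ((i | i) | i)
        · simp only [Sum.elim_inl]
          omega
        · simp only [Sum.elim_inl, Sum.elim_inr]
          omega
        · simp only [Sum.elim_inr]
          omega)
      (by simp [two_mul])
    have e2 : (hk (Df S) (2 * n + 1) + x • J _ _) =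
        (Matrix.of fun i j : Fin (2 * n + 1) => Df S (i + j) + x) := by
      ext i j
      simp [hk, J]
    set a : Fin n → ℂ := fun _ => 1 + x with ha
    set b : Fin n → ℂ := fun i => t * Df S (n + i) + (x - 1) with hb
    have hD0 : ∀ m, Df S (2 * m) = 1 := by
      intro m
      rw [Df, h0, h1]
      ring
    have hD1 : ∀ m, Df S (2 * m + 1) = t * Df S m - 1 := by
      intro m
      rw [Df, Df, show 2 * m + 1 + 1 = 2 * (m + 1) by ring, h0, h1]
      ring
    have e3 : (Matrix.of fun i j : (Fin n ⊕ Fin n) ⊕ Unit => Df S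
        (Sum.elim (Sum.elim (fun i : Fin n => 2 * (i : ℕ)) (fun i : Fin n => 2 * (i : ℕ) + 1))
          (fun _ : Unit => 2 * n) i +
        Sum.elim (Sum.elim (fun i : Fin n => 2 * (i : ℕ)) (fun i : Fin n => 2 * (i : ℕ) + 1))
          (fun _ : Unit => 2 * n) j) + x) =
        bord (fromBlocks ((1 + x) • J (Fin n) (Fin n))
          (t • hk (Df S) n + (x - 1) • J _ _)
          (t • hk (Df S) n + (x - 1) • J _ _)
          ((1 + x) • J (Fin n) (Fin n))) (Sum.elim a b) (Sum.elim a b) (1 + x) := by
      ext i j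
      rcases i with (i | i) | i <;> rcases j with (j | j) | j
      · simp only [Matrix.of_apply, Sum.elim_inl, fromBlocks_apply₁₁, J, Matrix.smul_apply,
          smul_eq_mul, bord]
        rw [← mul_add, hD0]
        ring
      · simp only [Matrix.of_apply, Sum.elim_inl, Sum.elim_inr, fromBlocks_apply₁₂,
          fromBlocks_apply₁₁, J, hk, Matrix.smul_apply, smul_eq_mul, Matrix.add_apply, bord]
        rw [show 2 * (i : ℕ) + (2 * (j : ℕ) + 1) = 2 * (i + j) + 1 by ring, hD1]
        ring
      · simp only [Matrix.of_apply, Sum.elim_inl, Sum.elim_inr, fromBlocks_apply₁₂, bord, ha]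
        rw [← mul_add, hD0]
      · simp only [Matrix.of_apply, Sum.elim_inl, Sum.elim_inr, fromBlocks_apply₂₁,
          fromBlocks_apply₁₁, J, hk, Matrix.smul_apply, smul_eq_mul, Matrix.add_apply, bord]
        rw [show 2 * (i : ℕ) + 1 + (2 * (j : ℕ)) = 2 * (i + j) + 1 by ring, hD1]
        ring
      · simp only [Matrix.of_apply, Sum.elim_inl, Sum.elim_inr, fromBlocks_apply₂₂,
          fromBlocks_apply₁₁, J, Matrix.smul_apply, smul_eq_mul, bord]
        rw [show 2 * (i : ℕ) + 1 + (2 * (j : ℕ) + 1) = 2 * (i + j + 1) by ring, hD0]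
        ring
      · simp only [Matrix.of_apply, Sum.elim_inl, Sum.elim_inr, fromBlocks_apply₁₂, bord, hb]
        rw [show 2 * (i : ℕ) + 1 + (2 * n) = 2 * (n + i) + 1 by ring, hD1]
        ring
      · simp only [Matrix.of_apply, Sum.elim_inl, Sum.elim_inr, fromBlocks_apply₂₁, bord, ha]
        rw [← mul_add, hD0]
      · simp only [Matrix.of_apply, Sum.elim_inl, Sum.elim_inr, fromBlocks_apply₂₁, bord, hb]
        rw [show 2 * n + (2 * (j : ℕ) + 1) = 2 * (n + j) + 1 by ring, hD1]
        ring
      · simp only [Matrix.of_apply, Sum.elim_inr, fromBlocks_apply₂₂, bord]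
        rw [← mul_add, hD0]
    have e4 := det_swap_succ ((1 + x) • J (Fin n) (Fin n)) (t • hk (Df S) n + (x - 1) • J _ _)
      a b a b (1 + x) (t * Df S (n + n) + (x - 1))
    rw [← e3] at e4
    have e5 : ((1 + x) • J (Fin n) (Fin n) - (t • hk (Df S) n + (x - 1) • J _ _)) =
        (-1 : ℂ) • (t • hk (Df S) n + (-2 : ℂ) • J _ _) := by
      ext i j
      simp only [J, Matrix.smul_apply, Matrix.add_apply, Matrix.sub_apply, smul_eq_mul,
        Matrix.of_apply]
      ring
    have e6 : ((1 + x) • J (Fin n) (Fin n) + (t • hk (Df S) n + (x - 1) • J _ _)) =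
        t • hk (Df S) n + (2 * x) • J _ _ := by
      ext i j
      simp only [J, Matrix.smul_apply, Matrix.add_apply, smul_eq_mul, Matrix.of_apply]
      ring
    have e7 : (bord (t • hk (Df S) n + (2 * x) • J _ _) (a + b) (a + b)
        (1 + x + (t * Df S (n + n) + (x - 1)))).det =
        (t • hk (Df S) (n + 1) + (2 * x) • J _ _).det := by
      have := bord_last (fun m => t * Df S m + 2 * x) n
      have e8 : (t • hk (Df S) (n + 1) + (2 * x) • J _ _) =
          (Matrix.of fun i j : Fin (n + 1) => t * Df S (i + j) + 2 * x) := by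
        ext i j
        simp [hk, J]
      rw [e8, ← this]
      congr 2
      · ext i j
        simp [hk, J]
      · ext i
        simp only [ha, hb, Pi.add_apply, add_comm n]
        ring
      · ext i
        simp only [ha, hb, Pi.add_apply]
        ring
      · ring
    have e9 : (bord ((-1 : ℂ) • (t • hk (Df S) n + (-2 : ℂ) • J _ _)) (a - b) (a - b)
        (1 + x - (t * Df S (n + n) + (x - 1)))).det =
        ((-1 : ℂ) • (t • hk (Df S) (n + 1) + (-2 : ℂ) • J _ _)).det := by
      have := bord_last (fun m => -(t * Df S m - 2)) n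
      have e8 : ((-1 : ℂ) • (t • hk (Df S) (n + 1) + (-2 : ℂ) • J _ _)) =
          (Matrix.of fun i j : Fin (n + 1) => -(t * Df S (i + j) - 2)) := by
        ext i j
        simp only [hk, J, Matrix.smul_apply, Matrix.add_apply, smul_eq_mul, Matrix.of_apply]
        ring
      rw [e8, ← this]
      congr 2
      · ext i j
        simp only [hk, J, Matrix.smul_apply, Matrix.add_apply, smul_eq_mul, Matrix.of_apply]
        ring
      · ext i
        simp only [ha, hb, Pi.sub_apply, add_comm n]
        ring
      · ext i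
        simp only [ha, hb, Pi.sub_apply]
        ring
      · ring
    rw [e5, e6, e7, e9, e1, ← e2, det_smul, det_smul, det_affine hn, det_affine hn,
      det_affine n.succ_pos, det_affine n.succ_pos, det_add_J, Fintype.card_fin,
      Fintype.card_fin] at e4
    unfold g g'
    have e10 : (2 : ℂ) * ((hk (Df S) (2 * n + 1)).det + x * dd (hk (Df S) (2 * n + 1))) =
        2 * ((1 + x) * ((-1) ^ n * t ^ (2 * n) * (dd (hk (Df S) (n + 1)) * (hk (Df S) n).det -
          (hk (Df S) (n + 1)).det * dd (hk (Df S) n)))) := by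
      rw [e4]
      obtain ⟨k, rfl⟩ : ∃ k, n = k + 1 := ⟨n - 1, by omega⟩
      simp only [Nat.succ_eq_add_one, Nat.add_sub_cancel]
      rw [show 2 * (k + 1) = (k + 1) + (k + 1) by ring]
      simp only [pow_add, pow_one]
      ring
    exact mul_left_cancel₀ two_ne_zero e10
  have k0 := key 0
  have k1 := key 1
  constructor
  · linear_combination k0
  · linear_combination k1 - k0

end Q263.HK
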